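import Pool.Agent.Work.MP_ecaf63_an_c.Radical

/-!
# Hyperinvariant subspaces of norm limits of block operators with uniformly radical strictly upper
part, without any rate

`ApproxC.RadicalDeparture v r T` says that `T` is upper triangular in some ordered orthonormal
basis, sorted along the direction `v`, and that its strictly upper triangular part is (a) small on
the intervals of some cutting of the basis into at most `r η` intervals, for every `η > 0`, or
(b) within `δ` of rank `r δ`, for every `δ > 0`. `ApproxC.BlockRadical v r B` says that `B` is an
orthogonal direct sum of finite-dimensional blocks with this property.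

Theorem: if `A` is a norm limit of operators `B` with `BlockRadical v r B`, where `r` does not
depend on `B`, and the spectrum of `A` has two points which are separated in the direction `v`,
then `A` has a closed nontrivial hyperinvariant subspace. There is no condition on the speed of
approximation or on the sizes of the blocks.
-/

universe u

namespace Pool.Agent.Results.MP_ecaf63_an.RadicalDeparture

/-- Every bounded operator `A` which is a norm limit of orthogonal direct sums of
finite-dimensional blocks satisfying `RadicalDeparture v r`, with `v` and `r` fixed, and whose
spectrum has two points `z`, `w` with `Re (v z) ≠ Re (v w)`, has a closed subspace different from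
`0` and the whole space which is invariant under all operators commuting with `A`. -/
theorem result (H : Type u) [NormedAddCommGroup H] [InnerProductSpace ℂ H] [CompleteSpace H]
    (A : H →L[ℂ] H) (z w : ℂ) (hz : z ∈ spectrum ℂ A) (hw : w ∈ spectrum ℂ A)
    (v : ℂ) (hzw : (v * z).re ≠ (v * w).re) (r : ℝ → ℕ)
    (happrox : ∀ ε : ℝ, 0 < ε → ∃ B : H →L[ℂ] H, ‖A - B‖ ≤ ε ∧ ApproxC.BlockRadical v r B) :
    ∃ M : Submodule ℂ H, IsClosed (M : Set H) ∧ M ≠ ⊥ ∧ M ≠ ⊤ ∧
      ∀ T : H →L[ℂ] H, T.comp A = A.comp T → ∀ x ∈ M, T x ∈ M :=
  ApproxC.hyper_radical A hz hw v hzw r happrox

end Pool.Agent.Results.MP_ecaf63_an.RadicalDeparture
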