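import Pool.Agent.Work.MP_ecaf63_an_c.FinalS

/-!
# Hyperinvariant subspaces of operators approximable by blocks with imaginary parts of slowly
growing Schatten norm

`ApproxC.imPart T = (T - T*) / (2i)` is the imaginary part of an operator on a finite-dimensional
inner product space, `ApproxC.BlockSchatten k D B` says that `B` is an orthogonal direct sum of
finite-dimensional blocks such that the trace of the `2 ^ (k + 1)`-th power of the imaginary part
of every block is at most `D`.

Theorem: if the spectrum of `A` has two different points and, for all small `ε`, `A` is within `ε`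
of an orthogonal direct sum of finite-dimensional blocks on each of which the `p`-th power of the
Schatten `p`-norm of the imaginary part is at most `K log(1/ε) / (log log(1/ε))^s`, where
`p = 2 ^ (k + 1) < s` (for instance: bounded, without any rate), then `A` has a closed nontrivial
hyperinvariant subspace.
-/

universe u

namespace Pool.Agent.Results.MP_ecaf63_an.SchattenImaginary

/-- Every bounded operator `A` with at least two points in the spectrum which, for all small `ε`,
is `ε`-close to an orthogonal direct sum of finite-dimensional blocks with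
`tr ((Im B)^p) ≤ K log(1/ε) / (log log(1/ε))^s` on every block, `p = 2 ^ (k + 1) < s`, has a
closed subspace different from `0` and the whole space which is invariant under all operators
commuting with `A`. -/
theorem result (H : Type u) [NormedAddCommGroup H] [InnerProductSpace ℂ H] [CompleteSpace H]
    (A : H →L[ℂ] H) (z w : ℂ) (hz : z ∈ spectrum ℂ A) (hw : w ∈ spectrum ℂ A) (hzw : z ≠ w)
    (k : ℕ) (K s ε₀ : ℝ) (hs : (2 : ℝ) ^ (k + 1) < s) (hε₀ : 0 < ε₀)
    (happrox : ∀ ε : ℝ, 0 < ε → ε < ε₀ → ∃ B : H →L[ℂ] H, ‖A - B‖ ≤ ε ∧
      ApproxC.BlockSchatten k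
        (K * Real.log (1 / ε) / (Real.log (Real.log (1 / ε))) ^ s) B) :
    ∃ M : Submodule ℂ H, IsClosed (M : Set H) ∧ M ≠ ⊥ ∧ M ≠ ⊤ ∧
      ∀ T : H →L[ℂ] H, T.comp A = A.comp T → ∀ x ∈ M, T x ∈ M :=
  ApproxC.schat_fun A hz hw hzw k K s ε₀ hs hε₀ happrox

end Pool.Agent.Results.MP_ecaf63_an.SchattenImaginary
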