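import Pool.Agent.Work.MP_ecaf63_an.Final

/-!
# Hyperinvariant subspaces of operators approximable by blocks with slowly growing departure
from normality

`ApproxInv.departureSq T` is the squared departure from normality (Henrici) of an operator on a
finite-dimensional inner product space, `ApproxInv.BlockDeparture D B` says that `B` is an
orthogonal direct sum of finite-dimensional blocks with squared departure at most `D`.

Theorem: if the spectrum of `A` has two different points and, for all small `ε`, `A` is within `ε`
of an orthogonal direct sum of finite-dimensional blocks whose squared departure from normality is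
at most `K log(1/ε) / (log log(1/ε))^s`, `s > 2` (for instance: bounded, without any rate), then
`A` has a closed nontrivial hyperinvariant subspace.
-/

universe u

namespace Pool.Agent.Results.MP_ecaf63_an.SlowDeparture

/-- Every bounded operator `A` with at least two points in the spectrum which, for all small `ε`,
is `ε`-close to an orthogonal direct sum of finite-dimensional blocks of squared departure from
normality at most `K log(1/ε) / (log log(1/ε))^s`, `s > 2`, has a closed subspace different from
`0` and the whole space which is invariant under all operators commuting with `A`. -/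
theorem result (H : Type u) [NormedAddCommGroup H] [InnerProductSpace ℂ H] [CompleteSpace H]
    (A : H →L[ℂ] H) (z w : ℂ) (hz : z ∈ spectrum ℂ A) (hw : w ∈ spectrum ℂ A) (hzw : z ≠ w)
    (K s ε₀ : ℝ) (hs : 2 < s) (hε₀ : 0 < ε₀)
    (happrox : ∀ ε : ℝ, 0 < ε → ε < ε₀ → ∃ B : H →L[ℂ] H, ‖A - B‖ ≤ ε ∧
      ApproxInv.BlockDeparture
        (K * Real.log (1 / ε) / (Real.log (Real.log (1 / ε))) ^ s) B) :
    ∃ M : Submodule ℂ H, IsClosed (M : Set H) ∧ M ≠ ⊥ ∧ M ≠ ⊤ ∧
      ∀ T : H →L[ℂ] H, T.comp A = A.comp T → ∀ x ∈ M, T x ∈ M :=
  ApproxInv.hyper_fun A hz hw hzw K s ε₀ hs hε₀ happrox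

end Pool.Agent.Results.MP_ecaf63_an.SlowDeparture
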